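import Pool.Agent.helper64.NQ.Spec

set_option autoImplicit false

namespace Pool.Agent.NQ

open Pool.Agent.helper58.DC Pool.Agent.DI Pool.Agent.DR

open Classical in
theorem JPR_JQ {Q : Type} [Group Q] [Fintype Q] (N : Subgroup Q) (ω : Q → Q → ℂˣ) :
    JQ N ω = ∑ x ∈ Finset.univ.filter (fun x : Q × Q => Subgroup.closure {x.1, x.2} = N),
      ((ω x.1 x.2 : ℂˣ) : ℂ) := by
  unfold JQ
  rw [← finsum_mem_coe_finset]
  congr 1
  funext x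
  simp

theorem JPR_one_right {Q : Type} [Group Q] {V : Subgroup Q} {ω : Q → Q → ℂˣ} (h : IsAlt V ω)
    {x : Q} (hx : x ∈ V) : ω x 1 = 1 := by
  have h1 := h.mul_right x hx 1 V.one_mem 1 V.one_mem
  rw [mul_one] at h1
  exact left_eq_mul.1 h1

theorem JPR_one_left {Q : Type} [Group Q] {V : Subgroup Q} {ω : Q → Q → ℂˣ} (h : IsAlt V ω)
    {x : Q} (hx : x ∈ V) : ω 1 x = 1 := by
  have h1 := h.mul_left 1 V.one_mem 1 V.one_mem x hx
  rw [mul_one] at h1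
  exact left_eq_mul.1 h1

theorem JPR_pow_right {Q : Type} [Group Q] {V : Subgroup Q} {ω : Q → Q → ℂˣ} (h : IsAlt V ω)
    {x y : Q} (hx : x ∈ V) (hy : y ∈ V) (k : ℕ) : ω x (y ^ k) = ω x y ^ k := by
  induction k with
  | zero => rw [pow_zero, pow_zero, JPR_one_right h hx]
  | succ k ih => rw [pow_succ, pow_succ, h.mul_right x hx _ (V.pow_mem hy k) y hy, ih]

theorem JPR_pow_left {Q : Type} [Group Q] {V : Subgroup Q} {ω : Q → Q → ℂˣ} (h : IsAlt V ω)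
    {x y : Q} (hx : x ∈ V) (hy : y ∈ V) (k : ℕ) : ω (x ^ k) y = ω x y ^ k := by
  induction k with
  | zero => rw [pow_zero, pow_zero, JPR_one_left h hy]
  | succ k ih => rw [pow_succ, pow_succ, h.mul_left _ (V.pow_mem hx k) x hx y hy, ih]

theorem JPR_sup {Q : Type} [Group Q] (hc : ∀ x y : Q, x * y = y * x) (N₁ N₂ : Subgroup Q) {z : Q}
    (hz : z ∈ N₁ ⊔ N₂) : ∃ a ∈ N₁, ∃ b ∈ N₂, a * b = z := by
  haveI : N₂.Normal := ⟨fun n hn g => by rw [hc g n, mul_inv_cancel_right]; exact hn⟩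
  have h1 : z ∈ ((N₁ ⊔ N₂ : Subgroup Q) : Set Q) := hz
  rw [Subgroup.mul_normal] at h1
  obtain ⟨a, ha, b, hb, hab⟩ := Set.mem_mul.1 h1
  exact ⟨a, ha, b, hb, hab⟩

theorem JPR : JPR_stmt := by
  classical
  intro Q _ _ hc N₁ N₂ hcop ω hω
  haveI : Fintype Q := Fintype.ofFinite Q
  -- the exponent
  obtain ⟨k, hk1, hk2⟩ := Nat.chineseRemainder hcop 1 0
  have hp1 : ∀ x ∈ N₁, x ^ k = x := by
    intro x hx
    have h1 : orderOf x ∣ Nat.card N₁ := by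
      have := orderOf_dvd_natCard (⟨x, hx⟩ : N₁)
      rwa [Subgroup.orderOf_mk] at this
    have h2 : k ≡ 1 [MOD orderOf x] := Nat.ModEq.of_dvd h1 hk1
    have h3 := pow_eq_pow_iff_modEq.2 h2
    rwa [pow_one] at h3
  have hp2 : ∀ x ∈ N₂, x ^ k = 1 := by
    intro x hx
    have h1 : orderOf x ∣ Nat.card N₂ := by
      have := orderOf_dvd_natCard (⟨x, hx⟩ : N₂)
      rwa [Subgroup.orderOf_mk] at this
    exact orderOf_dvd_iff_pow_eq_one.1 (h1.trans ((Nat.modEq_zero_iff_dvd).1 hk2))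
  have hkey : ∀ x ∈ N₁, ∀ y ∈ N₂, (x * y) ^ k = x := by
    intro x hx y hy
    have h1 : (x * y) ^ k = x ^ k * y ^ k := (show Commute x y from hc x y).mul_pow k
    rw [h1, hp1 x hx, hp2 y hy, mul_one]
  have hle1 : N₁ ≤ N₁ ⊔ N₂ := le_sup_left
  have hle2 : N₂ ≤ N₁ ⊔ N₂ := le_sup_right
  have hcl : ∀ (U : Subgroup Q) (a b : Q), a ∈ U → b ∈ U → Subgroup.closure {a, b} ≤ U := by
    intro U a b ha hb
    rw [Subgroup.closure_le]
    intro z hz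
    rcases hz with rfl | hz
    · exact ha
    · rw [Set.mem_singleton_iff] at hz
      rw [hz]
      exact hb
  have hl : ∀ a b : Q, a ∈ Subgroup.closure {a, b} :=
    fun a b => Subgroup.subset_closure (Set.mem_insert a {b})
  have hr : ∀ a b : Q, b ∈ Subgroup.closure {a, b} :=
    fun a b => Subgroup.subset_closure (Set.mem_insert_of_mem a rfl)
  rw [JPR_JQ, JPR_JQ, JPR_JQ, Finset.sum_mul_sum, ← Finset.sum_product']
  symm
  refine Finset.sum_bij (fun (x : (Q × Q) × (Q × Q)) _ => (x.1.1 * x.2.1, x.1.2 * x.2.2)) ?_ ?_ ?_ ?_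
  · rintro ⟨⟨a₁, b₁⟩, ⟨a₂, b₂⟩⟩ hx
    simp only [Finset.mem_product, Finset.mem_filter, Finset.mem_univ, true_and] at hx ⊢
    obtain ⟨h1, h2⟩ := hx
    have ha₁ : a₁ ∈ N₁ := by rw [← h1]; exact hl a₁ b₁
    have hb₁ : b₁ ∈ N₁ := by rw [← h1]; exact hr a₁ b₁
    have ha₂ : a₂ ∈ N₂ := by rw [← h2]; exact hl a₂ b₂
    have hb₂ : b₂ ∈ N₂ := by rw [← h2]; exact hr a₂ b₂
    apply le_antisymm
    · exact hcl _ _ _ ((N₁ ⊔ N₂).mul_mem (hle1 ha₁) (hle2 ha₂))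
        ((N₁ ⊔ N₂).mul_mem (hle1 hb₁) (hle2 hb₂))
    · have hA := hl (a₁ * a₂) (b₁ * b₂)
      have hB := hr (a₁ * a₂) (b₁ * b₂)
      set C := Subgroup.closure {a₁ * a₂, b₁ * b₂} with hC
      have e1 : a₁ ∈ C := by
        rw [← hkey a₁ ha₁ a₂ ha₂]
        exact C.pow_mem hA k
      have e2 : b₁ ∈ C := by
        rw [← hkey b₁ hb₁ b₂ hb₂]
        exact C.pow_mem hB k
      have e3 : a₂ ∈ C := by
        have : a₂ = a₁⁻¹ * (a₁ * a₂) := by rw [inv_mul_cancel_left]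
        rw [this]
        exact C.mul_mem (C.inv_mem e1) hA
      have e4 : b₂ ∈ C := by
        have : b₂ = b₁⁻¹ * (b₁ * b₂) := by rw [inv_mul_cancel_left]
        rw [this]
        exact C.mul_mem (C.inv_mem e2) hB
      apply sup_le
      · rw [← h1]
        exact hcl _ _ _ e1 e2
      · rw [← h2]
        exact hcl _ _ _ e3 e4
  · rintro ⟨⟨a₁, b₁⟩, ⟨a₂, b₂⟩⟩ hx ⟨⟨a₁', b₁'⟩, ⟨a₂', b₂'⟩⟩ hx' he
    simp only [Finset.mem_product, Finset.mem_filter, Finset.mem_univ, true_and] at hx hx'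
    obtain ⟨h1, h2⟩ := hx
    obtain ⟨h1', h2'⟩ := hx'
    have ha₁ : a₁ ∈ N₁ := by rw [← h1]; exact hl a₁ b₁
    have hb₁ : b₁ ∈ N₁ := by rw [← h1]; exact hr a₁ b₁
    have ha₂ : a₂ ∈ N₂ := by rw [← h2]; exact hl a₂ b₂
    have hb₂ : b₂ ∈ N₂ := by rw [← h2]; exact hr a₂ b₂
    have ha₁' : a₁' ∈ N₁ := by rw [← h1']; exact hl a₁' b₁'
    have hb₁' : b₁' ∈ N₁ := by rw [← h1']; exact hr a₁' b₁'
    have ha₂' : a₂' ∈ N₂ := by rw [← h2']; exact hl a₂' b₂'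
    have hb₂' : b₂' ∈ N₂ := by rw [← h2']; exact hr a₂' b₂'
    have e1 : a₁ * a₂ = a₁' * a₂' := congrArg Prod.fst he
    have e2 : b₁ * b₂ = b₁' * b₂' := congrArg Prod.snd he
    have e3 : a₁ = a₁' := by rw [← hkey a₁ ha₁ a₂ ha₂, e1, hkey a₁' ha₁' a₂' ha₂']
    have e4 : b₁ = b₁' := by rw [← hkey b₁ hb₁ b₂ hb₂, e2, hkey b₁' hb₁' b₂' hb₂']
    subst e3
    subst e4
    rw [mul_left_cancel e1, mul_left_cancel e2]
  · rintro ⟨a, b⟩ hx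
    simp only [Finset.mem_filter, Finset.mem_univ, true_and] at hx
    have ha : a ∈ N₁ ⊔ N₂ := by rw [← hx]; exact hl a b
    have hb : b ∈ N₁ ⊔ N₂ := by rw [← hx]; exact hr a b
    obtain ⟨a₁, ha₁, a₂, ha₂, ea⟩ := JPR_sup hc N₁ N₂ ha
    obtain ⟨b₁, hb₁, b₂, hb₂, eb⟩ := JPR_sup hc N₁ N₂ hb
    have hU₁ : Subgroup.closure {a₁, b₁} ≤ N₁ := hcl _ _ _ ha₁ hb₁
    have hU₂ : Subgroup.closure {a₂, b₂} ≤ N₂ := hcl _ _ _ ha₂ hb₂
    have hU : N₁ ⊔ N₂ ≤ Subgroup.closure {a₁, b₁} ⊔ Subgroup.closure {a₂, b₂} := by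
      rw [← hx]
      apply hcl
      · rw [← ea]
        exact Subgroup.mul_mem _ (le_sup_left (b := Subgroup.closure {a₂, b₂}) (hl a₁ b₁))
          (le_sup_right (a := Subgroup.closure {a₁, b₁}) (hl a₂ b₂))
      · rw [← eb]
        exact Subgroup.mul_mem _ (le_sup_left (b := Subgroup.closure {a₂, b₂}) (hr a₁ b₁))
          (le_sup_right (a := Subgroup.closure {a₁, b₁}) (hr a₂ b₂))
    refine ⟨((a₁, b₁), (a₂, b₂)), ?_, ?_⟩
    · simp only [Finset.mem_product, Finset.mem_filter, Finset.mem_univ, true_and]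
      refine ⟨le_antisymm hU₁ ?_, le_antisymm hU₂ ?_⟩
      · intro z hz
        obtain ⟨u, hu, v, hv, e⟩ := JPR_sup hc _ _ (hU (hle1 hz))
        have h1 := hkey u (hU₁ hu) v (hU₂ hv)
        rw [e, hp1 z hz] at h1
        rw [h1]
        exact hu
      · intro z hz
        obtain ⟨u, hu, v, hv, e⟩ := JPR_sup hc _ _ (hU (hle2 hz))
        have h1 := hkey u (hU₁ hu) v (hU₂ hv)
        rw [e, hp2 z hz] at h1
        rw [← h1, one_mul] at e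
        rw [← e]
        exact hv
    · show (a₁ * a₂, b₁ * b₂) = (a, b)
      rw [ea, eb]
  · rintro ⟨⟨a₁, b₁⟩, ⟨a₂, b₂⟩⟩ hx
    simp only [Finset.mem_product, Finset.mem_filter, Finset.mem_univ, true_and] at hx
    obtain ⟨h1, h2⟩ := hx
    have ha₁ : a₁ ∈ N₁ := by rw [← h1]; exact hl a₁ b₁
    have hb₁ : b₁ ∈ N₁ := by rw [← h1]; exact hr a₁ b₁
    have ha₂ : a₂ ∈ N₂ := by rw [← h2]; exact hl a₂ b₂
    have hb₂ : b₂ ∈ N₂ := by rw [← h2]; exact hr a₂ b₂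
    have e1 : ω a₁ b₂ = 1 := by
      rw [← hp1 a₁ ha₁, JPR_pow_left hω (hle1 ha₁) (hle2 hb₂), ← JPR_pow_right hω (hle1 ha₁) (hle2 hb₂),
        hp2 b₂ hb₂, JPR_one_right hω (hle1 ha₁)]
    have e2 : ω a₂ b₁ = 1 := by
      rw [← hp1 b₁ hb₁, JPR_pow_right hω (hle2 ha₂) (hle1 hb₁), ← JPR_pow_left hω (hle2 ha₂) (hle1 hb₁),
        hp2 a₂ ha₂, JPR_one_left hω (hle1 hb₁)]
    show ((ω a₁ b₁ : ℂˣ) : ℂ) * ((ω a₂ b₂ : ℂˣ) : ℂ) = ((ω (a₁ * a₂) (b₁ * b₂) : ℂˣ) : ℂ)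
    rw [hω.mul_left a₁ (hle1 ha₁) a₂ (hle2 ha₂) _
      ((N₁ ⊔ N₂).mul_mem (hle1 hb₁) (hle2 hb₂)), hω.mul_right a₁ (hle1 ha₁) b₁ (hle1 hb₁) b₂ (hle2 hb₂),
      hω.mul_right a₂ (hle2 ha₂) b₁ (hle1 hb₁) b₂ (hle2 hb₂), e1, e2, mul_one, one_mul, Units.val_mul]

end Pool.Agent.NQ
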